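import Pool.Agent.U937.DD.Fin

set_option autoImplicit false

/-!
# Deciding diffeomorphism of homeomorphic smooth 4-manifolds: there is no algorithm

Let `G` be a finitely presented group with an unsolvable word problem. For a word `w` let `X(w)` be
the boundary of the 5-dimensional handlebody of the presentation `⟨G, y, s | [[w, y], s]⟩`, in which
the framings of the 2-handles of the relators of `G` are even and the framing of the last 2-handle is
odd. Let `A`, `B` be the connected sums of `ℝP⁴` and of the Cappell-Shaneson fake `ℝP⁴` with
`k (S² × S²)`; these are homeomorphic, and their Pin⁺ bordism classes are `± 1` and `± 9` in `ℤ/16`.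
The closed connected manifolds `X(w) # A` and `X(w) # B` are homeomorphic.

* If `w = 1` in `G`, then the last surgery is done on a contractible circle with odd framing:
  `X(w)` is the connected sum of a manifold and the nontrivial `S²`-bundle `S` over `S²`. As
  `S # A` and `S # B` are diffeomorphic (Gompf), so are `X(w) # A` and `X(w) # B`.
* If `w ≠ 1` in `G`, then the universal covering of `X(w)` is a spin manifold: this means `z ≠ 1` in
  the central extension `ghat` of the fundamental group, and is proved by an explicit
  representation. `X(w)` is a boundary in the twisted spin bordism given by this extension. In the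
  bordism group of the type of `X(w) # A` and `X(w) # B`, an amalgamated sum, the Pin⁺ bordism group
  injects (Mayer-Vietoris sequence, and the signature), and an orientation reversing involution in the
  free product `π₁(X(w)) * ℤ/2` is conjugate to the generator of the second factor. So a
  diffeomorphism would give `± 1 = ± 9` in `ℤ/16`.

The theorems of 4-dimensional topology which are used are published; they are the fields of the
structure `Known` and are assumed.
-/

namespace Pool.Agent.Results.MP_d40431_gt.NoAlgorithm

open Pool.Agent.U937.DD

/-- **Theorem.** -/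
theorem result :
    (∃ n, ¬ ComputablePred fun P : Pres n => (ghat P).z = 1) ∧
    ∀ K : Known, ¬ Q1 ∧
      (∀ S : ℕ → Prop, REPred S → ∃ M N : ℕ → Code, Computable M ∧ Computable N ∧
        ∀ n, Closed (M n) ∧ Closed (N n) ∧ Homeo (M n) (N n) ∧ (Diffeo (M n) (N n) ↔ S n)) ∧
      ∀ (n : ℕ) (P : Pres n), (ghat P).z ≠ 1 →
        Closed (K.sum (K.bd n P) K.A) ∧ Closed (K.sum (K.bd n P) K.B) ∧
        Homeo (K.sum (K.bd n P) K.A) (K.sum (K.bd n P) K.B) ∧
        ¬ Diffeo (K.sum (K.bd n P) K.A) (K.sum (K.bd n P) K.B) :=
  ⟨Known.z_undecidable, fun K => ⟨K.not_Q1, K.hard, fun n P hz =>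
    ⟨K.sum_closed _ _ (K.bd_closed n P) K.A_closed, K.sum_closed _ _ (K.bd_closed n P) K.B_closed,
      K.homeo _ (K.bd_closed n P), K.not_diffeo n P hz⟩⟩⟩

end Pool.Agent.Results.MP_d40431_gt.NoAlgorithm
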