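import Pool.Agent.U644.RC.Stab

/-!
# Deciding diffeomorphism of homeomorphic smooth 4-manifolds: one stabilisation

Q1 (`Decides (fun _ _ => True)`) is equivalent to the same question for the pairs of homeomorphic
manifolds which become diffeomorphic after ONE stabilisation, and to the computability of the least
number of stabilisations after which two homeomorphic manifolds are diffeomorphic.
-/

namespace Pool.Agent.Results.MP_d40431_gt.OneStabilisation

open Pool.Agent.U644.RC

/-- **Theorem.** -/
theorem result (S : Smooth) :
    (S.Decides (fun _ _ => True) ↔ S.Decides (fun X Y => S.Diff (S.stab X) (S.stab Y))) ∧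
    (S.Decides (fun _ _ => True) ↔ S.NumberComputable) :=
  ⟨decides_iff_one, decides_iff_number⟩

end Pool.Agent.Results.MP_d40431_gt.OneStabilisation
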